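import Pool.Agent.H761R2.Besov.Unif

/-!
# Hausdorff-null compact sets of positive Besov capacity for `q < p`
-/

set_option autoImplicit false

open scoped ENNReal Topology ContDiff
open Set MeasureTheory Filter Metric

namespace Pool.Agent.Results.MP_9e0505_an.NullPositive

/-- The norm of the inhomogeneous Besov space `Λ^{pq}_α(ℝⁿ)`, defined with differences of order
`k` (to be used with `k > α`; `k = 1` is allowed when `α < 1`):
`‖u‖_p + (∫ (‖Δ_h^k u‖_p / |h|^α)^q dh / |h|^n)^{1/q}`. -/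
noncomputable def besovNorm (n k : ℕ) (α p q : ℝ) (u : EuclideanSpace ℝ (Fin n) → ℝ) : ℝ≥0∞ :=
  eLpNorm u (ENNReal.ofReal p) volume +
    (∫⁻ h, (eLpNorm ((fwdDiff h)^[k] u) (ENNReal.ofReal p) volume / ENNReal.ofReal (‖h‖ ^ α)) ^ q /
      ENNReal.ofReal (‖h‖ ^ n)) ^ (1 / q)

/-- The Besov capacity of a compact set: the infimum of `‖u‖^p` over all smooth compactly supported
`u` with `u ≥ 1` on `K`. -/
noncomputable def besovCap (n k : ℕ) (α p q : ℝ) (K : Set (EuclideanSpace ℝ (Fin n))) : ℝ≥0∞ :=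
  ⨅ (u : EuclideanSpace ℝ (Fin n) → ℝ) (_ : ContDiff ℝ ∞ u) (_ : HasCompactSupport u)
    (_ : ∀ x ∈ K, 1 ≤ u x), besovNorm n k α p q u ^ p

open Pool.Agent.H761R2.Besov

lemma fwdDiff_eq {n : ℕ} (k : ℕ) (h : EE n) (u : EE n → ℝ) (y : EE n) :
    (fwdDiff h)^[k] u y = (-1) ^ k * dl k h u y := by
  rw [fwdDiff_iter_eq_sum_shift]
  unfold dl
  rw [Finset.mul_sum]
  apply Finset.sum_congr rfl
  intro j hj
  have hjk : j ≤ k := Nat.lt_succ_iff.1 (Finset.mem_range.1 hj)
  rw [zsmul_eq_mul, Nat.cast_smul_eq_nsmul]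
  push_cast
  have e : (-1 : ℝ) ^ (k - j) = (-1) ^ k * (-1) ^ j := by
    have h1 : (-1 : ℝ) ^ k = (-1) ^ (k - j) * (-1) ^ j := by
      rw [← pow_add]; congr 1; omega
    rw [h1, mul_assoc, ← pow_add, ← two_mul, pow_mul]
    simp
  rw [e]
  ring

lemma eLpNorm_eq_Lp' {n : ℕ} {p : ℝ} (hp : 0 < p) (u : EE n → ℝ) :
    eLpNorm u (ENNReal.ofReal p) volume = Lp' p u := by
  rw [eLpNorm_eq_lintegral_rpow_enorm_toReal (by simp [hp]) ENNReal.ofReal_ne_top,
    ENNReal.toReal_ofReal hp.le]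
  rfl

lemma eLpNorm_fwdDiff {n : ℕ} (k : ℕ) {p : ℝ} (hp : 0 < p) (u : EE n → ℝ) (h : EE n) :
    eLpNorm ((fwdDiff h)^[k] u) (ENNReal.ofReal p) volume = NN k p u h := by
  rw [eLpNorm_eq_Lp' hp]
  unfold Lp' NN
  congr 1
  apply lintegral_congr
  intro y
  rw [fwdDiff_eq, enorm_mul, enorm_pow, enorm_neg, enorm_one, one_pow, one_mul]

lemma besovNorm_eq {n k : ℕ} {α p q : ℝ} (hp : 0 < p) (u : EE n → ℝ) :
    besovNorm n k α p q u = Lp' p u + semi k α p q u ^ (1 / q) := by
  unfold besovNorm semi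
  rw [eLpNorm_eq_Lp' hp]
  simp_rw [eLpNorm_fwdDiff k hp]

/-- **Negative answer to Q1, for all parameters.** For every `n ≥ 1`, `α > 0` and `1 < p < ∞` with
`α p < n` there is a compact set `K ⊆ ℝⁿ` of `(n - α p)`-dimensional Hausdorff measure zero whose
Besov capacity `A_{α,p,q}(K)` is positive for all `1 ≤ q < p` (whatever the order `k > α` of the
differences in the norm). -/
theorem result : ∀ n : ℕ, 1 ≤ n → ∀ α p : ℝ, 0 < α → 1 < p → α * p < n →
    ∃ K : Set (EuclideanSpace ℝ (Fin n)), IsCompact K ∧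
      (μH[(n : ℝ) - α * p] : Measure (EuclideanSpace ℝ (Fin n))) K = 0 ∧
      ∀ (k : ℕ) (q : ℝ), α < k → 1 ≤ q → q < p → 0 < besovCap n k α p q K := by
  intro n hn α p hα hp hαp
  have : NeZero n := ⟨by omega⟩
  have hpc : p.HolderConjugate (p / (p - 1)) := Real.HolderConjugate.conjExponent hp
  have hp'1 : 1 < p / (p - 1) := hpc.symm.lt
  have hd : 0 < (n : ℝ) - α * p := by linarith
  have hdn : (n : ℝ) - α * p < n := by
    have : 0 < α * p := mul_pos hα (by linarith)
    linarith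
  obtain ⟨P, hP, a, ha, hC⟩ := exists_tree' (n := n) hn (d := n - α * p)
    (σ := p / (p - 1) - 1) hd hdn (by linarith)
  refine ⟨KS P, KS_compact P, KS_null hd P a ha hC, ?_⟩
  intro k q hk hq hqp
  have hk1 : 1 ≤ k := by
    have : (0 : ℝ) < k := hα.trans hk
    exact_mod_cast this
  obtain ⟨C, hCt, hlow⟩ := lower_bound hk1 hα hpc hq hqp P hP
  have hpos : 0 < ((1 / 2 : ℝ≥0∞) / C) ^ p := by
    apply ENNReal.rpow_pos
    · exact ENNReal.div_pos (by simp) hCt
    · apply ENNReal.div_ne_top (by simp)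
      rintro rfl
      have := hlow (fun _ => 1) ⟨continuous_const, 1, zero_le_one, by simp⟩
        uniformContinuous_const (by simp)
      simp at this
  refine lt_of_lt_of_le hpos ?_
  unfold besovCap
  refine le_iInf fun u => le_iInf fun hu => le_iInf fun hsupp => le_iInf fun h1 => ?_
  have hunice : Nice u := by
    obtain ⟨D, hD⟩ := hsupp.exists_bound_of_continuous hu.continuous
    refine ⟨hu.continuous, max D 0, le_max_right _ _, fun x => ?_⟩
    have := hD x
    rw [Real.norm_eq_abs] at this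
    exact this.trans (le_max_left _ _)
  have huc : UniformContinuous u := hsupp.uniformContinuous_of_continuous hu.continuous
  have := hlow u hunice huc h1
  rw [besovNorm_eq (by linarith)]
  apply ENNReal.rpow_le_rpow _ (by linarith)
  apply ENNReal.div_le_of_le_mul'
  exact this

end Pool.Agent.Results.MP_9e0505_an.NullPositive
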